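import Pool.Agent.H433R3.Ml12
import Pool.Agent.Results.MP_4229e6_an.EndpointFails

/-!
# The one-supremum strong type bound: true for `0 < α < 1`, false for `α = 0`

The definitions for the first part (`IsCZO`, `MemAp`, `oneSup`, `dual`, `wm`) are in
`Pool.Agent.H433R3.Ml12`; those for the second part (dimension one, `p = 2`) are in
`Pool.Agent.Results.MP_4229e6_an.EndpointFails`.
-/

set_option autoImplicit false

namespace Pool.Agent.Results.MP_4229e6_an.StrongBound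

open MeasureTheory
open scoped ENNReal NNReal

universe u

/-- **The one-supremum mixed strong type bound.**
(1) For every `0 < α < 1`, `1 < p < ∞` and every Calderon-Zygmund operator `T` on `ℝ^d` the bound
`‖T‖_{L^p(w)} ≤ C ([w]_{(A_p)^θ (A_∞^exp)^{1-θ}} + [σ]_{(A_{p'})^η (A_∞^exp)^{1-η}})` holds for all
`w ∈ A_p`, with `θ = 1 / (p - α)` and `η = 1 / (p' - α)`.
(2) For `α = 0` it fails (on `ℝ`, with `p = 2`, so `θ = η = 1/2`) for some Calderon-Zygmund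
operator. -/
theorem result :
    (∀ (d : ℕ), 0 < d → ∀ (𝕜 : Type u) [RCLike 𝕜] (p α : ℝ), 1 < p → 0 < α → α < 1 →
      ∀ (T : ((Fin d → ℝ) → 𝕜) → ((Fin d → ℝ) → 𝕜)) (K : (Fin d → ℝ) → (Fin d → ℝ) → 𝕜),
        Pool.Agent.H433R3.MixedSup.IsCZO T K →
      ∃ C : ℝ≥0, ∀ w : (Fin d → ℝ) → ℝ, Pool.Agent.H433R3.MixedSup.MemAp p w →
        ∀ f : (Fin d → ℝ) → 𝕜, MemLp f 2 volume →
          MemLp f (ENNReal.ofReal p) (Pool.Agent.H433R3.MixedSup.wm w) →
          eLpNorm (T f) (ENNReal.ofReal p) (Pool.Agent.H433R3.MixedSup.wm w) ≤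
            C * (Pool.Agent.H433R3.MixedSup.oneSup p (1 / (p - α)) (1 - 1 / (p - α)) w +
              Pool.Agent.H433R3.MixedSup.oneSup (p / (p - 1)) (1 / (p / (p - 1) - α))
                (1 - 1 / (p / (p - 1) - α)) (Pool.Agent.H433R3.MixedSup.dual p w)) *
              eLpNorm f (ENNReal.ofReal p) (Pool.Agent.H433R3.MixedSup.wm w)) ∧
    (∃ (T : (ℝ → ℝ) → ℝ → ℝ) (K : ℝ → ℝ → ℝ), EndpointFails.IsCZO T K ∧
      ∀ C : ℝ≥0, ∃ w : ℝ → ℝ, EndpointFails.MemA2 w ∧ EndpointFails.oneSup w ≠ ⊤ ∧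
        EndpointFails.oneSup (fun x => (w x)⁻¹) ≠ ⊤ ∧
        ∃ f : ℝ → ℝ, MemLp f 2 volume ∧ MemLp f 2 (EndpointFails.wm w) ∧
          C * (EndpointFails.oneSup w + EndpointFails.oneSup (fun x => (w x)⁻¹)) *
            eLpNorm f 2 (EndpointFails.wm w) < eLpNorm (T f) 2 (EndpointFails.wm w)) := by
  refine ⟨?_, ?_⟩
  · intro d hd 𝕜 _ p α hp hα hα1 T K hT
    obtain ⟨C, hC⟩ := Pool.Agent.H433R3.MixedSup.both hd hp hα hα1 T K hT
    exact ⟨C, fun w hw f hf2 hfp => (hC w hw f hf2 hfp).2⟩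
  · obtain ⟨T, K, hT, h⟩ := EndpointFails.result
    refine ⟨T, K, hT, fun C => ?_⟩
    obtain ⟨w, hw, h1, h2, f, hf, hfw, _, h3⟩ := h C
    exact ⟨w, hw, h1, h2, f, hf, hfw, h3⟩

end Pool.Agent.Results.MP_4229e6_an.StrongBound
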